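import Pool.Agent.Lib.H57CM.M5

set_option autoImplicit false

namespace Pool.Agent.Results.MP_12fa5c_lc.AllThreeRings

/-- `X` is defined in `K` by a universal formula of the language of rings, without parameters. -/
def UnivDef (K : Type) [Field K] [FirstOrder.Ring.CompatibleRing K] (X : K → Prop) : Prop :=
  ∃ φ : FirstOrder.Language.ring.Formula (Fin 1),
    FirstOrder.Language.BoundedFormula.IsUniversal φ ∧
      ∀ a : K, φ.Realize (fun _ : Fin 1 => a) ↔ X a

/-- In every number field `K` each of the subrings `ℤ`, `ℚ` and the ring of integers is defined by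
a universal formula of the language of rings without parameters. -/
theorem result (K : Type) [Field K] [NumberField K] [FirstOrder.Ring.CompatibleRing K] :
    UnivDef K (fun a => ∃ n : ℤ, (n : K) = a) ∧ UnivDef K (fun a => ∃ q : ℚ, (q : K) = a) ∧
      UnivDef K (fun a => IsIntegral ℤ a) :=
  ⟨Pool.Agent.H57U.univDef_Z K, Pool.Agent.H57U.univDef_rat K, Pool.Agent.H57O.univDef_int K⟩

end Pool.Agent.Results.MP_12fa5c_lc.AllThreeRings
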